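import Pool.Agent.H74.DZ.Targets
import Pool.Agent.H15.LI.LF
import Pool.Agent.H27.LI.ST
import Pool.Agent.H92.DL.YN

/-!
# Functional equation of one factor with the size of the gamma factor (module XF)
-/

set_option autoImplicit false

open Complex MeasureTheory Set

namespace Pool.Agent.H92.LIDZ

open Pool.Agent.H74.DZ Pool.Agent.H74.LI

/-- size of `Γ` at real shifts of `lp v` -/
lemma gamma_shift {δ v : ℝ} (hv : 1 ≤ v) (h6 : 6 * |δ| ≤ v) :
    ∃ E : ℝ, ‖Gamma (lp v + δ)‖ = ‖Gamma (lp v)‖ * Real.exp (δ * Real.log v + E) ∧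
      |E| ≤ |δ| * (1 / (2 * v)) + (9 * |δ| + 9 * |δ| ^ 2) * (2 / v) := by
  have hn : ‖(δ : ℂ)‖ = |δ| := by rw [Complex.norm_real, Real.norm_eq_abs]
  have h1 := Pool.Agent.H27.LI.Gamma_quot (δ := (δ : ℂ)) (t := v) hv (by rw [hn]; exact h6)
  have h2 := (Pool.Agent.H27.LI.sum_ej_summable (δ := (δ : ℂ)) (t := v) hv (by rw [hn]; exact h6)).2
  rw [hn] at h2
  have h3 := Pool.Agent.H27.LI.log_lp (t := v) (by linarith)
  set S := ∑' j, Pool.Agent.H27.LI.ej (δ : ℂ) (lp v) j with hS
  refine ⟨δ * ((Complex.log (lp v)).re - Real.log v) + S.re, ?_, ?_⟩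
  · rw [h1, norm_mul, Complex.norm_exp]
    congr 2
    rw [Complex.add_re, Complex.re_ofReal_mul]
    ring
  · have h4 : |(Complex.log (lp v)).re - Real.log v| ≤ 1 / (2 * v) := by
      have h5 := Complex.abs_re_le_norm (Complex.log (lp v) - (Real.log v + Real.pi / 2 * I))
      have h6 : (Complex.log (lp v) - (Real.log v + Real.pi / 2 * I)).re =
          (Complex.log (lp v)).re - Real.log v := by
        have : (Real.pi / 2 * I : ℂ) = ((Real.pi / 2 : ℝ) : ℂ) * I := by push_cast; ring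
        rw [this]
        simp [Complex.sub_re, Complex.add_re]
      rw [h6] at h5
      exact h5.trans h3
    refine (abs_add_le _ _).trans (add_le_add ?_ ((Complex.abs_re_le_norm _).trans h2))
    rw [abs_mul]
    exact mul_le_mul_of_nonneg_left h4 (abs_nonneg _)

/-- `|Γ(1/2+iv)|² cosh(πv) = π` -/
lemma gamma_half (v : ℝ) : ‖Gamma (1 / 2 + v * I)‖ ^ 2 * Real.cosh (Real.pi * v) = Real.pi := by
  have h1 := Complex.Gamma_mul_Gamma_one_sub (1 / 2 + v * I)
  have h2 : (1 - (1 / 2 + v * I) : ℂ) = (starRingEnd ℂ) (1 / 2 + v * I) := by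
    simp only [map_add, map_mul, Complex.conj_I, Complex.conj_ofReal, map_div₀, map_one, map_ofNat]
    ring
  rw [h2, Complex.Gamma_conj, Complex.mul_conj] at h1
  have h3 : Complex.sin (Real.pi * (1 / 2 + v * I)) = ((Real.cosh (Real.pi * v) : ℝ) : ℂ) := by
    have e : (Real.pi * (1 / 2 + v * I) : ℂ) = ((Real.pi * v : ℝ) : ℂ) * I + Real.pi / 2 := by
      push_cast; ring
    rw [e, Complex.sin_add_pi_div_two, Complex.cos_mul_I, ← Complex.ofReal_cosh]
  rw [h3] at h1
  have hc : (0 : ℝ) < Real.cosh (Real.pi * v) := Real.cosh_pos _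
  have h4 : (Complex.normSq (Gamma (1 / 2 + v * I)) : ℝ) = Real.pi / Real.cosh (Real.pi * v) := by
    exact_mod_cast h1
  rw [Complex.normSq_eq_norm_sq] at h4
  rw [h4]
  field_simp

lemma norm_cos_sq (z : ℂ) : ‖Complex.cos z‖ ^ 2 = Real.cos z.re ^ 2 + Real.sinh z.im ^ 2 := by
  rw [← Complex.normSq_eq_norm_sq, Complex.cos_eq z]
  have e : Complex.cos z.re * Complex.cosh z.im - Complex.sin z.re * Complex.sinh z.im * I =
      ((Real.cos z.re * Real.cosh z.im : ℝ) : ℂ) + ((-(Real.sin z.re * Real.sinh z.im) : ℝ) : ℂ) * I := by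
    push_cast; ring
  rw [e, Complex.normSq_add_mul_I]
  have h1 := Real.cosh_sq z.im
  have h2 := Real.sin_sq z.re
  have e2 : (Real.cos z.re * Real.cosh z.im) ^ 2 + (-(Real.sin z.re * Real.sinh z.im)) ^ 2 =
    Real.cos z.re ^ 2 * Real.cosh z.im ^ 2 + Real.sin z.re ^ 2 * Real.sinh z.im ^ 2 := by ring
  rw [e2, h1, h2]
  ring

lemma gc_bound {z : ℂ} {v : ℝ} (hv : 1 ≤ v) (hz : z.im = Real.pi * v / 2) :
    1 ≤ ‖Gamma (1 / 2 + v * I)‖ * ‖Complex.cos z‖ ∧
      ‖Gamma (1 / 2 + v * I)‖ * ‖Complex.cos z‖ ≤ 2 := by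
  have h1 := gamma_half v
  have h2 := norm_cos_sq z
  rw [hz] at h2
  set y := Real.pi * v / 2 with hy
  have hpi := Real.pi_gt_three
  have hpi2 := Real.pi_lt_four
  have hy1 : 1 ≤ y := by rw [hy]; nlinarith
  have hs : 1 ≤ Real.sinh y := by
    have := Real.self_le_sinh_iff.2 (show (0:ℝ) ≤ y by linarith)
    linarith
  have hcosh : Real.cosh (Real.pi * v) = 1 + 2 * Real.sinh y ^ 2 := by
    have e : Real.pi * v = 2 * y := by rw [hy]; ring
    rw [e, Real.cosh_two_mul, Real.cosh_sq]
    ring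
  rw [hcosh] at h1
  set G := ‖Gamma (1 / 2 + v * I)‖
  set c := ‖Complex.cos z‖
  set S := Real.sinh y
  have hG : 0 ≤ G := norm_nonneg _
  have hc : 0 ≤ c := norm_nonneg _
  have hcos : Real.cos z.re ^ 2 ≤ 1 := Real.cos_sq_le_one _
  have hcos0 : 0 ≤ Real.cos z.re ^ 2 := sq_nonneg _
  have hS2 : 1 ≤ S ^ 2 := by nlinarith
  -- (Gc)^2 (1+2S²) = π (cos² + S²)
  have h3 : (G * c) ^ 2 * (1 + 2 * S ^ 2) = Real.pi * (Real.cos z.re ^ 2 + S ^ 2) := by
    rw [← h2, ← h1]; ring
  constructor
  · by_contra hlt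
    push Not at hlt
    have h4 : (G * c) ^ 2 < 1 := by
      have : 0 ≤ G * c := mul_nonneg hG hc
      nlinarith
    have h5 : (G * c) ^ 2 * (1 + 2 * S ^ 2) < 1 + 2 * S ^ 2 := by nlinarith
    rw [h3] at h5
    nlinarith
  · by_contra hlt
    push Not at hlt
    have h4 : 4 < (G * c) ^ 2 := by nlinarith
    have h5 : 4 * (1 + 2 * S ^ 2) < (G * c) ^ 2 * (1 + 2 * S ^ 2) := by nlinarith
    rw [h3] at h5
    nlinarith

/-- the gamma factor -/
noncomputable def XX (f : Fac) (ε : ℂ) (κ : ℝ) (s : ℂ) : ℂ :=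
  ε * cexp ((1 / 2 - f.w s) * Real.log f.π.q) /
    (Gammaℂ (f.w s) * Complex.cos (Real.pi * (f.w s - κ) / 2))

lemma w_re (f : Fac) (s : ℂ) : (f.w s).re = 1 / 2 + f.a * s.re := by
  unfold Fac.w
  simp [Complex.add_re]

lemma w_im (f : Fac) (s : ℂ) : (f.w s).im = f.a * s.im + f.τ := by
  unfold Fac.w
  simp [Complex.add_im]

lemma norm_XX (f : Fac) {ε : ℂ} (hε : ‖ε‖ = 1) (κ : ℝ) {s : ℂ} (hv : 12 ≤ (f.w s).im)
    (h6 : 6 * |1 + f.a * s.re| ≤ (f.w s).im) :
    ∃ E : ℝ, ‖XX f ε κ s‖ = Real.exp (-(f.a * s.re) * (Real.log f.π.q + Real.log (f.w s).im -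
        Real.log (2 * Real.pi)) + E) ∧
      |E| ≤ 5 + (|1 + f.a * s.re| * (1 / (2 * (f.w s).im)) +
        (9 * |1 + f.a * s.re| + 9 * |1 + f.a * s.re| ^ 2) * (2 / (f.w s).im)) := by
  set v := (f.w s).im with hvdef
  set δ := 1 + f.a * s.re with hδ
  obtain ⟨E1, h1, hE1⟩ := gamma_shift (δ := δ) (v := v) (by linarith) h6
  obtain ⟨E2, h2, hE2⟩ := gamma_shift (δ := 1) (v := v) (by linarith) (by rw [abs_one]; linarith)
  have hw : f.w s = lp v + δ := by
    apply Complex.ext
    · rw [w_re]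
      unfold Pool.Agent.H74.LI.lp
      simp
      rw [hδ]
      ring
    · unfold Pool.Agent.H74.LI.lp
      simp
      rfl
  have hhalf : (1 / 2 + v * I : ℂ) = lp v + (1 : ℝ) := by
    unfold Pool.Agent.H74.LI.lp; push_cast; ring
  have hvpos : 0 < v := by linarith
  have hE2' : |E2| ≤ 4 := by
    refine hE2.trans ?_
    rw [abs_one]
    have : (1 : ℝ) * (1 / (2 * v)) + (9 * 1 + 9 * 1 ^ 2) * (2 / v) = 73 / (2 * v) := by
      field_simp; norm_num
    rw [this, div_le_iff₀ (by linarith)]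
    linarith
  set z := (Real.pi * (f.w s - κ) / 2 : ℂ) with hz
  have hzim : z.im = Real.pi * v / 2 := by
    have : z = ((Real.pi / 2 : ℝ) : ℂ) * (f.w s - κ) := by
      rw [hz]; push_cast; ring
    rw [this, Complex.im_ofReal_mul]
    simp only [Complex.sub_im, Complex.ofReal_im]
    rw [← hvdef]
    ring
  obtain ⟨hp1, hp2⟩ := gc_bound (z := z) (v := v) (by linarith) hzim
  set G := ‖Gamma (1 / 2 + v * I)‖ with hG
  set c := ‖Complex.cos z‖ with hc
  have hGpos : 0 < G := by
    rcases (norm_nonneg (Gamma (1 / 2 + v * I))).eq_or_lt with h | h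
    · rw [hG, ← h] at hp1
      linarith
    · exact h
  have hcpos : 0 < c := by
    rcases (norm_nonneg (Complex.cos z)).eq_or_lt with h | h
    · rw [hc, ← h] at hp1
      linarith
    · exact h
  have hlp : ‖Gamma (lp v)‖ = G * Real.exp (-(1 * Real.log v + E2)) := by
    rw [hG, hhalf, h2, mul_assoc, ← Real.exp_add]
    simp
  have hGw : ‖Gamma (f.w s)‖ = G * Real.exp ((f.a * s.re) * Real.log v + (E1 - E2)) := by
    rw [hw, h1, hlp, mul_assoc, ← Real.exp_add]
    congr 2
    rw [hδ]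
    ring
  have hpow : ‖(2 * (Real.pi : ℂ)) ^ (-(f.w s))‖ =
      Real.exp (-(1 / 2 + f.a * s.re) * Real.log (2 * Real.pi)) := by
    have e : (2 * (Real.pi : ℂ)) = ((2 * Real.pi : ℝ) : ℂ) := by push_cast; ring
    rw [e, Complex.norm_cpow_eq_rpow_re_of_pos Real.two_pi_pos, Complex.neg_re, w_re,
      Real.rpow_def_of_pos Real.two_pi_pos]
    congr 1
    ring
  have hGC : ‖Gammaℂ (f.w s)‖ = 2 * Real.exp (-(1 / 2 + f.a * s.re) * Real.log (2 * Real.pi)) *
      (G * Real.exp ((f.a * s.re) * Real.log v + (E1 - E2))) := by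
    unfold Gammaℂ
    rw [norm_mul, norm_mul, hpow, hGw]
    norm_num
  have hnum : ‖cexp ((1 / 2 - f.w s) * Real.log f.π.q)‖ =
      Real.exp (-(f.a * s.re) * Real.log f.π.q) := by
    rw [Complex.norm_exp, mul_comm ((1 : ℂ) / 2 - f.w s), Complex.re_ofReal_mul, Complex.sub_re, w_re]
    congr 1
    simp
    ring
  have hpi := Real.pi_gt_three
  have hpi2 := Real.pi_lt_d2
  -- the constant
  set L2 := Real.log (2 * Real.pi) with hL2
  have hexpL : Real.exp L2 = 2 * Real.pi := Real.exp_log Real.two_pi_pos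
  set m := Real.exp ((1 / 2) * L2) / (2 * (G * c)) with hm
  have hesq : Real.exp ((1 / 2) * L2) ^ 2 = 2 * Real.pi := by
    rw [← Real.exp_nat_mul, ← hexpL]
    congr 1
    push_cast
    ring
  have he0 : 0 < Real.exp ((1 / 2) * L2) := Real.exp_pos _
  have he1 : 2 < Real.exp ((1 / 2) * L2) := by nlinarith
  have he2 : Real.exp ((1 / 2) * L2) < 3 := by nlinarith
  have hmpos : 0 < m := by rw [hm]; positivity
  have hm1 : 1 / 2 ≤ m := by
    rw [hm, le_div_iff₀ (by positivity)]
    nlinarith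
  have hm2 : m ≤ 2 := by
    rw [hm, div_le_iff₀ (by positivity)]
    nlinarith
  have hlogm : |Real.log m| ≤ 1 := by
    rw [abs_le]
    constructor
    · rw [Real.le_log_iff_exp_le hmpos]
      refine le_trans ?_ hm1
      rw [Real.exp_neg, inv_le_comm₀ (Real.exp_pos _) (by norm_num)]
      have := Real.exp_one_gt_d9
      norm_num
      linarith
    · rw [Real.log_le_iff_le_exp hmpos]
      have := Real.exp_one_gt_d9
      linarith
  refine ⟨Real.log m - (E1 - E2), ?_, ?_⟩
  · unfold XX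
    rw [norm_div, norm_mul, norm_mul, hε, one_mul, hnum, hGC]
    have e : -(f.a * s.re) * (Real.log f.π.q + Real.log v - L2) + (Real.log m - (E1 - E2)) =
        Real.log m + (-(f.a * s.re) * Real.log f.π.q + (-(f.a * s.re) * Real.log v - (E1 - E2)) +
          f.a * s.re * L2) := by ring
    rw [e]
    rw [Real.exp_add (Real.log m), Real.exp_log hmpos,
      Real.exp_add (-(f.a * s.re) * Real.log f.π.q + (-(f.a * s.re) * Real.log v - (E1 - E2))),
      Real.exp_add (-(f.a * s.re) * Real.log f.π.q), hm]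
    have e1 : Real.exp (-(1 / 2 + f.a * s.re) * L2) = (Real.exp ((1 / 2) * L2) *
        Real.exp (f.a * s.re * L2))⁻¹ := by
      rw [← Real.exp_add, ← Real.exp_neg]
      congr 1
      ring
    have e2 : Real.exp (-(f.a * s.re) * Real.log v - (E1 - E2)) =
        (Real.exp (f.a * s.re * Real.log v + (E1 - E2)))⁻¹ := by
      rw [← Real.exp_neg]
      congr 1
      ring
    rw [e1, e2]
    have p1 := Real.exp_pos (f.a * s.re * L2)
    have p2 := Real.exp_pos (f.a * s.re * Real.log v + (E1 - E2))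
    have hcc : ‖Complex.cos (Real.pi * (f.w s - κ) / 2)‖ = c := rfl
    rw [hcc]
    field_simp
  · have h5 : |Real.log m - (E1 - E2)| ≤ |Real.log m| + (|E1| + |E2|) :=
      (abs_sub _ _).trans (add_le_add le_rfl (abs_sub _ _))
    linarith

theorem xf : T_XF := by
  intro f
  obtain ⟨ε, κ, hε, -, hLF⟩ := Pool.Agent.H15.LI.lf f.π
  have ha := f.pos
  set t₀ := 576 + 24 / f.a + 2 * |f.τ| / f.a with ht₀
  have h24 : 0 ≤ 24 / f.a := by positivity
  have hτ0 : 0 ≤ 2 * |f.τ| / f.a := by positivity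
  have basic : ∀ t : ℝ, t₀ ≤ t → 576 ≤ t ∧ 24 ≤ f.a * t ∧ 2 * |f.τ| ≤ f.a * t ∧
      f.a * t / 2 ≤ f.a * t + f.τ := by
    intro t ht
    have h1 : 24 / f.a ≤ t := by linarith
    have h2 : 2 * |f.τ| / f.a ≤ t := by linarith
    rw [div_le_iff₀ ha] at h1 h2
    have h3 := neg_abs_le f.τ
    refine ⟨by linarith, by linarith, by linarith, by linarith⟩
  have hvim : ∀ s : ℂ, t₀ ≤ s.im → 12 ≤ (f.w s).im := by
    intro s hs
    obtain ⟨b1, b2, b3, b4⟩ := basic s.im hs
    rw [w_im]
    linarith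
  refine ⟨XX f ε κ, Real.exp (30 + 72 * f.a + 2 * |f.τ|), t₀, ?_, by linarith, ?_, ?_⟩
  · rw [Real.one_le_exp_iff]
    positivity
  · intro s hs
    have hv := hvim s hs
    have hvpos : 0 < (f.w s).im := by linarith
    constructor
    · unfold XX
      have hw : DifferentiableAt ℂ f.w s := by
        unfold Fac.w
        fun_prop
      refine DifferentiableAt.div ?_ ?_ ?_
      · refine (differentiableAt_const _).mul ?_
        exact (((differentiableAt_const _).sub hw).mul (differentiableAt_const _)).cexp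
      · refine DifferentiableAt.mul ?_ ?_
        · exact (Pool.Agent.H92.DL.gammaC_diff hvpos).comp s hw
        · refine DifferentiableAt.ccos ?_
          exact (((differentiableAt_const _).mul (hw.sub (differentiableAt_const _))).div_const _)
      · exact mul_ne_zero (Pool.Agent.H92.DL.gammaC_ne hvpos) (Pool.Agent.H92.DL.cos_ne _ hvpos)
    · have h1 := hLF (f.w s) hvpos.ne'
      have h2 : Gammaℂ (f.w s) * Complex.cos (Real.pi * (f.w s - κ) / 2) ≠ 0 :=
        mul_ne_zero (Pool.Agent.H92.DL.gammaC_ne hvpos) (Pool.Agent.H92.DL.cos_ne _ hvpos)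
      have h3 : f.bar.L (-s) = (Pool.Agent.H74.LI.bar f.π).L (1 - f.w s) := by
        unfold Fac.L Fac.w Fac.bar
        congr 1
        push_cast
        ring
      rw [h3]
      unfold XX Fac.L
      rw [div_mul_eq_mul_div, eq_div_iff h2, h1]
  · intro s hs hre
    obtain ⟨b1, b2, b3, b4⟩ := basic s.im hs
    have hv := hvim s hs
    have hspos : 0 < s.im := by linarith
    have hre1 : |s.re| ≤ s.im / 24 := by
      have h1 : |s.re| ^ 2 ≤ s.im := by rw [sq_abs]; exact hre
      by_contra hlt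
      push Not at hlt
      have h2 : (s.im / 24) ^ 2 < |s.re| ^ 2 := by
        have : 0 ≤ s.im / 24 := by linarith
        nlinarith
      nlinarith
    have hre2 : |s.re| ≤ s.im := by
      have := abs_nonneg s.re
      linarith
    have hδ : |1 + f.a * s.re| ≤ 1 + f.a * |s.re| := by
      refine (abs_add_le _ _).trans ?_
      rw [abs_one, abs_mul, abs_of_pos ha]
    have h6 : 6 * |1 + f.a * s.re| ≤ (f.w s).im := by
      rw [w_im]
      have : f.a * |s.re| ≤ f.a * (s.im / 24) := mul_le_mul_of_nonneg_left hre1 ha.le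
      linarith
    obtain ⟨E, hE, hEb⟩ := norm_XX f hε κ hv h6
    have hwim := w_im f s
    set v := (f.w s).im with hvdef
    have hvpos : 0 < v := by linarith
    have hvt : f.a * s.im / 2 ≤ v := by rw [hwim]; exact b4
    -- bound of E
    have hD0 := abs_nonneg (1 + f.a * s.re)
    set D := |1 + f.a * s.re| with hD
    have hEb2 : |E| ≤ 28 + 72 * f.a := by
      have e1 : D * (1 / (2 * v)) ≤ 1 := by
        rw [mul_one_div, div_le_one (by positivity)]
        linarith
      have e2 : 9 * D * (2 / v) ≤ 3 := by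
        rw [mul_div_assoc', div_le_iff₀ hvpos]
        linarith
      have e3 : 9 * D ^ 2 * (2 / v) ≤ 18 + 72 * f.a := by
        rw [mul_div_assoc', div_le_iff₀ hvpos]
        have h1 : D ^ 2 ≤ (1 + f.a * |s.re|) ^ 2 := by
          have : 0 ≤ 1 + f.a * |s.re| := by positivity
          nlinarith
        have h2 : (1 + f.a * |s.re|) ^ 2 ≤ 2 + 2 * f.a ^ 2 * s.im := by
          have h3 : |s.re| ^ 2 ≤ s.im := by rw [sq_abs]; exact hre
          nlinarith [sq_nonneg (1 - f.a * |s.re|), sq_nonneg f.a]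
        have h4 : (18 + 72 * f.a) * v ≥ (18 + 72 * f.a) * (f.a * s.im / 2) :=
          mul_le_mul_of_nonneg_left hvt (by positivity)
        nlinarith
      have e4 : (9 * D + 9 * D ^ 2) * (2 / v) = 9 * D * (2 / v) + 9 * D ^ 2 * (2 / v) := by ring
      rw [e4] at hEb
      linarith
    -- the logarithm
    have hlog : Real.log v = Real.log f.a + Real.log s.im + Real.log (1 + f.τ / (f.a * s.im)) := by
      rw [hwim, ← Real.log_mul ha.ne' hspos.ne', ← Real.log_mul (by positivity)]
      · congr 1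
        field_simp
      · have h1 : |f.τ / (f.a * s.im)| ≤ 1 / 2 := by
          rw [abs_div, abs_of_pos (mul_pos ha hspos), div_le_iff₀ (mul_pos ha hspos)]
          linarith
        have := neg_abs_le (f.τ / (f.a * s.im))
        linarith
    have hF : |f.a * s.re * Real.log (1 + f.τ / (f.a * s.im))| ≤ 2 * |f.τ| := by
      have h1 : |f.τ / (f.a * s.im)| ≤ 1 / 2 := by
        rw [abs_div, abs_of_pos (mul_pos ha hspos), div_le_iff₀ (mul_pos ha hspos)]
        linarith
      have h2 : |Real.log (1 + f.τ / (f.a * s.im))| ≤ 2 * |f.τ / (f.a * s.im)| := by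
        obtain ⟨l1, l2⟩ := abs_le.1 h1
        set x := f.τ / (f.a * s.im)
        rw [abs_le]
        constructor
        · have h3 := Real.one_sub_inv_le_log_of_pos (show (0:ℝ) < 1 + x by linarith)
          refine le_trans ?_ h3
          have h4 : 1 - (1 + x)⁻¹ = x / (1 + x) := by
            have : (1 + x) ≠ 0 := by linarith
            field_simp
            ring
          rw [h4, le_div_iff₀ (by linarith)]
          rcases le_total 0 x with hx | hx
          · rw [abs_of_nonneg hx]; nlinarith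
          · rw [abs_of_nonpos hx]; nlinarith
        · have h3 := Real.log_le_sub_one_of_pos (show (0:ℝ) < 1 + x by linarith)
          have := le_abs_self x
          have := abs_nonneg x
          linarith
      rw [abs_mul, abs_mul, abs_of_pos ha]
      have h3 : f.a * |s.re| * |Real.log (1 + f.τ / (f.a * s.im))| ≤
          f.a * s.im * (2 * |f.τ / (f.a * s.im)|) := by
        refine mul_le_mul (mul_le_mul_of_nonneg_left hre2 ha.le) h2 (abs_nonneg _) (by positivity)
      refine h3.trans (le_of_eq ?_)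
      rw [abs_div, abs_of_pos (mul_pos ha hspos)]
      field_simp
    have hq : (0 : ℝ) < f.π.q := by
      have := f.π.q_ne
      exact_mod_cast Nat.pos_of_ne_zero (NeZero.ne _)
    have hcon : f.con = f.a * (Real.log f.a + Real.log f.π.q - Real.log (2 * Real.pi)) := by
      unfold Fac.con
      rw [Real.log_div (by positivity) (by positivity), Real.log_mul ha.ne' hq.ne']
    have key : -(f.a * s.re) * (Real.log f.π.q + Real.log v - Real.log (2 * Real.pi)) + E =
        -s.re * (f.a * Real.log s.im + f.con) +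
          (E - f.a * s.re * Real.log (1 + f.τ / (f.a * s.im))) := by
      rw [hlog, hcon]; ring
    rw [hE, key, Real.exp_add (-s.re * (f.a * Real.log s.im + f.con))]
    set P := Real.exp (-s.re * (f.a * Real.log s.im + f.con)) with hP
    have hPpos : 0 < P := Real.exp_pos _
    have htot : |E - f.a * s.re * Real.log (1 + f.τ / (f.a * s.im))| ≤
        30 + 72 * f.a + 2 * |f.τ| := by
      refine (abs_sub _ _).trans ?_
      linarith
    obtain ⟨m1, m2⟩ := abs_le.1 htot
    constructor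
    · rw [← Real.exp_neg, mul_comm]
      exact mul_le_mul_of_nonneg_left (Real.exp_le_exp.2 m1) hPpos.le
    · rw [mul_comm]
      exact mul_le_mul_of_nonneg_right (Real.exp_le_exp.2 m2) hPpos.le

end Pool.Agent.H92.LIDZ
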